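import Pool.Agent.W360.MQ.Stm

/-!
# MQ-QA: quasiconvexity for trigonometric polynomials (assembly)
-/

set_option autoImplicit false

namespace Pool.Agent.W230.MQ

open Pool.Agent.W360.MQ

lemma Kr_cont (r : ℝ) {f g : ℂ × ℂ → ℝ} (hf : Continuous f) (hg : Continuous g) :
    Continuous fun F => Kr r (f F) (g F) := by
  unfold Kr
  exact (((((hf.sub hg).div_const r).add continuous_const).mul
    ((((hf.add hg).sub continuous_const)).max continuous_const)).div_const 2)

lemma pc_cont (N : ℕ) (r p q m : ℕ → ℝ) (A B C c d : ℝ) :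
    Continuous fun F : ℂ × ℂ => pc N r p q m A B C c d ‖F.1‖ ‖F.2‖ := by
  have h1 : Continuous fun F : ℂ × ℂ => ‖F.1‖ := continuous_fst.norm
  have h2 : Continuous fun F : ℂ × ℂ => ‖F.2‖ := continuous_snd.norm
  unfold pc
  refine Continuous.add ?_ (continuous_finsetSum _ fun i _ => ?_)
  · fun_prop
  · exact (((continuous_const.mul (Kr_cont (r i) h1 h2)).add
      (continuous_const.mul (Kr_cont (r i) h2 h1))).add
      (continuous_const.mul (((h1.add h2).sub continuous_const).max continuous_const)))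

theorem main (h1 : S_CONT) (h2 : S_DISC) (h3 : S_PIECE) (h4 : S_LIMQ) : S_QA := by
  intro α β hRC
  refine h4 _ (h1 α β hRC) fun R ε hR hε => ?_
  obtain ⟨N, r, p, q, m, A, B, C, c, d, hpos, hA, hB, hC, happ⟩ := h2 α β hRC R ε hR hε
  exact ⟨fun F => pc N r p q m A B C c d ‖F.1‖ ‖F.2‖, pc_cont N r p q m A B C c d,
    h3 N r p q m A B C c d hpos hA hB hC,
    fun F hF => happ ‖F.1‖ ‖F.2‖ (norm_nonneg _) (norm_nonneg _) hF⟩

end Pool.Agent.W230.MQ
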